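import Pool.Agent.MP_3d8edd_pr.H69.Basic

/-! One step of the stationary reflected Brownian motion. -/

open MeasureTheory ProbabilityTheory Set Filter
open scoped NNReal ENNReal Topology

namespace Pool.Agent.MP_3d8edd_pr.H39

open Pool.Agent.MP_3d8edd_pr.H69

/-- joint density of the maximum and the end point -/
noncomputable def dens (v : ℝ≥0) (p : ℝ × ℝ) : ℝ≥0∞ :=
  if 0 < p.1 ∧ p.2 < p.1 then
    ENNReal.ofReal (2 * (2 * p.1 - p.2) / v * gaussianPDFReal 0 v (2 * p.1 - p.2)) else 0

theorem measurable_dens (v : ℝ≥0) : Measurable (dens v) := by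
  refine Measurable.ite ((measurableSet_lt measurable_const measurable_fst).inter
    (measurableSet_lt measurable_snd measurable_fst)) ?_ measurable_const
  have := measurable_gaussianPDFReal 0 v
  fun_prop

theorem tail_dens {v : ℝ≥0} (hv : v ≠ 0) (m0 x : ℝ) :
    ∫⁻ m in Ioi m0, dens v (m, x) = gaussianPDF 0 v (2 * max m0 (max 0 x) - x) := by
  have hv' : (0 : ℝ) < v := by positivity
  set c := max m0 (max 0 x) with hc
  have c0 : 0 ≤ c := le_max_of_le_right (le_max_left _ _)
  have c1 : x ≤ c := le_max_of_le_right (le_max_right _ _)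
  have e : ∫⁻ m in Ioi m0, dens v (m, x) = ∫⁻ m in Ioi c,
      ENNReal.ofReal (2 * (2 * m - x) / v * gaussianPDFReal 0 v (2 * m - x)) := by
    rw [← lintegral_indicator measurableSet_Ioi, ← lintegral_indicator measurableSet_Ioi]
    refine lintegral_congr fun m => ?_
    simp only [dens, indicator, mem_Ioi, hc, max_lt_iff]
    by_cases h1 : m0 < m <;> by_cases h2 : 0 < m ∧ x < m <;> simp [h1, h2]
  have hd : ∀ m ∈ Ici c, HasDerivAt (fun m => -gaussianPDFReal 0 v (2 * m - x))
      (2 * (2 * m - x) / v * gaussianPDFReal 0 v (2 * m - x)) m := by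
    intro m _
    unfold gaussianPDFReal
    have h1 : HasDerivAt (fun m : ℝ => 2 * m - x - 0) 2 m := by
      simpa using ((hasDerivAt_id m).const_mul 2).sub_const x
    have h2 := ((((h1.pow 2).neg.div_const (2 * v)).exp).const_mul (√(2 * Real.pi * v))⁻¹).neg
    refine h2.congr_deriv ?_
    simp only [Pi.neg_apply, Pi.pow_apply]
    field_simp
    ring
  have hp : ∀ m ∈ Ioi c, 0 ≤ 2 * (2 * m - x) / v * gaussianPDFReal 0 v (2 * m - x) := by
    intro m hm
    have : c < m := hm
    exact mul_nonneg (div_nonneg (by linarith) hv'.le) (gaussianPDFReal_nonneg _ _ _)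
  have hl : Tendsto (fun m => -gaussianPDFReal 0 v (2 * m - x)) atTop (𝓝 0) := by
    unfold gaussianPDFReal
    have h1 : Tendsto (fun m : ℝ => 2 * m - x - 0) atTop atTop :=
      tendsto_atTop_add_const_right _ _ (tendsto_atTop_add_const_right _ _
        (tendsto_id.const_mul_atTop two_pos))
    have h2 : Tendsto (fun m : ℝ => -(2 * m - x - 0) ^ 2 / (2 * v)) atTop atBot :=
      (tendsto_neg_atTop_atBot.comp ((tendsto_pow_atTop two_ne_zero).comp h1)).atBot_div_const
        (by positivity)
    simpa using ((Real.tendsto_exp_atBot.comp h2).const_mul (√(2 * Real.pi * v))⁻¹).neg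
  rw [e, ← ofReal_integral_eq_lintegral_ofReal (integrableOn_Ioi_deriv_of_nonneg' hd hp hl)
    ((ae_restrict_iff' measurableSet_Ioi).2 (ae_of_all _ hp)),
    integral_Ioi_of_hasDerivAt_of_nonneg' hd hp hl, gaussianPDF, zero_sub, neg_neg]

theorem rect_dens {v : ℝ≥0} (hv : v ≠ 0) (m0 : ℝ) {A : Set ℝ} (hA : MeasurableSet A) :
    (volume.withDensity (dens v)) (Ioi m0 ×ˢ A) =
      ∫⁻ x in A, gaussianPDF 0 v (2 * max m0 (max 0 x) - x) := by
  rw [withDensity_apply _ (measurableSet_Ioi.prod hA), Measure.volume_eq_prod,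
    ← Measure.prod_restrict, lintegral_prod_symm _ (measurable_dens v).aemeasurable]
  simp only [tail_dens hv]

theorem ext_rect {ρ σ : Measure (ℝ × ℝ)} [IsFiniteMeasure ρ]
    (h : ∀ m A, MeasurableSet A → ρ (Ioi m ×ˢ A) = σ (Ioi m ×ˢ A)) : ρ = σ := by
  have u : ⋃ n : ℕ, Ioi (-(n : ℝ)) = univ := by
    refine eq_univ_of_forall fun x => ?_
    obtain ⟨n, hn⟩ := exists_nat_gt (-x)
    exact mem_iUnion.2 ⟨n, by simp only [mem_Ioi]; linarith⟩
  refine Measure.ext_of_generateFrom_of_iUnion
    (image2 (· ×ˢ ·) (range Ioi) {A : Set ℝ | MeasurableSet A}) (fun n => Ioi (-(n : ℝ)) ×ˢ univ)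
    (generateFrom_eq_prod ((borel_eq_generateFrom_Ioi ℝ).symm.trans BorelSpace.measurable_eq.symm)
      MeasurableSpace.generateFrom_measurableSet ⟨fun n => Ioi (-(n : ℝ)), fun n => ⟨_, rfl⟩, u⟩
      isCountablySpanning_measurableSet).symm
    (isPiSystem_Ioi.prod MeasurableSpace.isPiSystem_measurableSet) ?_
    (fun n => ⟨_, ⟨_, rfl⟩, univ, (MeasurableSet.univ : MeasurableSet (univ : Set ℝ)), rfl⟩)
    (fun n => measure_ne_top _ _) ?_
  · rw [← iUnion_prod_const, u, univ_prod_univ]
  · rintro _ ⟨_, ⟨m, rfl⟩, A, hA, rfl⟩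
    exact h m A hA

theorem law_ev (B : Bm1) {μ : Measure CP} {a t : ℝ} (hμ : IsBM μ a) (ht : 0 ≤ t) :
    μ.map (fun f => f t) = gaussianReal (a * t) t.toNNReal := by
  have h := B.law_sub μ a 0 t hμ ht
  rw [sub_zero] at h
  rw [← h]
  refine Measure.map_congr ?_
  filter_upwards [B.zero μ a hμ] with f hf
  rw [hf, sub_zero]

theorem joint0 (B : Bm1) (R : Ref) {μ : Measure CP} {t : ℝ} (hμ : IsBM μ 0) (ht : 0 < t) :
    μ.map (fun f => (smax f t, f t)) = volume.withDensity (dens t.toNNReal) := by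
  have := hμ.prob
  have hv : t.toNNReal ≠ 0 := by simpa using ht
  have hm : Measurable fun f : CP => (smax f t, f t) :=
    (measurable_smax t).prodMk (measurable_ev t)
  refine ext_rect fun m A hA => ?_
  rw [rect_dens hv m hA, Measure.map_apply hm (measurableSet_Ioi.prod hA)]
  rcases lt_or_ge m 0 with h | h
  · have e1 : μ ((fun f : CP => (smax f t, f t)) ⁻¹' (Ioi m ×ˢ A)) = μ ((fun f : CP => f t) ⁻¹' A) := by
      refine measure_congr ?_
      filter_upwards [B.zero μ 0 hμ] with f hf
      have := le_smax f (t := t) (z := 0) ⟨le_rfl, ht.le⟩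
      refine propext ⟨fun hh => hh.2, fun hh => ⟨?_, hh⟩⟩
      change m < smax f t
      linarith
    rw [e1, ← Measure.map_apply (measurable_ev t) hA, law_ev B hμ ht.le, zero_mul,
      gaussianReal_apply _ hv]
    refine lintegral_congr fun x => ?_
    rw [max_eq_right (h.le.trans (le_max_left _ _))]
    rcases le_total 0 x with h1 | h1
    · rw [max_eq_right h1]
      congr 1
      ring
    · rw [max_eq_left h1]
      simp [gaussianPDF, gaussianPDFReal]
  · have e1 := congrArg (fun ρ : Measure ℝ => ρ A) (R.refl μ t m hμ ht h)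
    have ms : Measurable fun x : ℝ => 2 * m - x := by fun_prop
    rw [Measure.map_apply (measurable_ev t) hA, Measure.restrict_apply (measurable_ev t hA),
      Measure.add_apply, Measure.map_apply ms hA, Measure.restrict_apply hA,
      Measure.restrict_apply (ms hA), gaussianReal_apply _ hv, gaussianReal_apply _ hv] at e1
    have e2 : (fun f : CP => (smax f t, f t)) ⁻¹' (Ioi m ×ˢ A) =
        (fun f : CP => f t) ⁻¹' A ∩ {f : CP | m < smax f t} := by
      ext f
      exact and_comm
    rw [e2, e1, ← lintegral_indicator (hA.inter measurableSet_Ioi),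
      ← lintegral_indicator ((ms hA).inter measurableSet_Ioi), ← lintegral_indicator hA,
      ← lintegral_sub_left_eq_self (fun x => (((fun x : ℝ => 2 * m - x) ⁻¹' A ∩ Ioi m).indicator
        fun x => gaussianPDF 0 t.toNNReal x) x) (2 * m),
      ← lintegral_add_left (((measurable_gaussianPDF _ _).indicator (hA.inter measurableSet_Ioi)))]
    refine lintegral_congr_ae ?_
    filter_upwards [compl_mem_ae_iff.2 (Real.volume_singleton (a := m))] with x hx
    by_cases h1 : x ∈ A
    swap
    · simp [indicator, h1]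
    rcases lt_or_gt_of_ne (show x ≠ m from hx) with h2 | h2
    · have a1 : ¬ m < x := by linarith
      have a2 : m < 2 * m - x := by linarith
      rw [indicator_of_mem h1, max_eq_left (max_le h h2.le)]
      simp [indicator, h1, a1, a2]
    · have a2 : ¬ m < 2 * m - x := by linarith
      rw [indicator_of_mem h1, max_eq_right (h.trans h2.le), max_eq_right h2.le,
        show 2 * x - x = x by ring]
      simp [indicator, h1, h2, a2]

theorem joint (B : Bm1) (R : Ref) (C : CMStmt) {μ : Measure CP} {a t : ℝ} (hμ : IsBM μ a)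
    (ht : 0 < t) : μ.map (fun f => (smax f t, f t)) = volume.withDensity fun p =>
      dens t.toNNReal p * ENNReal.ofReal (Real.exp (a * p.2 - a ^ 2 * t / 2)) := by
  have hm : Measurable fun f : CP => (smax f t, f t) :=
    (measurable_smax t).prodMk (measurable_ev t)
  have h0 := B.add_lin μ a (-a) hμ
  rw [add_neg_cancel] at h0
  have m1 : Measurable fun f : CP => f + lin (-a) := by fun_prop
  have m2 : Measurable fun f : CP => f + a • clamp t := by fun_prop
  have m3 : Measurable fun p : ℝ × ℝ => ENNReal.ofReal (Real.exp (a * p.2 - a ^ 2 * t / 2)) := by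
    fun_prop
  have e : μ.map (fun f => (smax f t, f t)) =
      ((μ.map fun f => f + lin (-a)).map fun f => f + a • clamp t).map
        fun f => (smax f t, f t) := by
    rw [Measure.map_map m2 m1, Measure.map_map hm (m2.comp m1)]
    congr 1
    funext f
    have k : ∀ z ∈ Icc 0 t, (f + lin (-a) + a • clamp t : CP) z = f z := by
      intro z hz
      simp [min_eq_left hz.2, max_eq_right hz.1]
    exact Prod.ext (congrArg sSup (image_congr k).symm) (k t ⟨ht.le, le_rfl⟩).symm
  rw [e, C _ 0 a t h0 ht.le]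
  refine Measure.ext_of_lintegral _ fun F hF => ?_
  have hF' : Measurable fun f : CP => F (smax f t, f t) := hF.comp hm
  have m4 : Measurable fun p : ℝ × ℝ =>
      dens t.toNNReal p * ENNReal.ofReal (Real.exp (a * p.2 - a ^ 2 * t / 2)) :=
    (measurable_dens _).mul m3
  rw [lintegral_map hF hm, lintegral_withDensity_eq_lintegral_mul _
    (by have := measurable_ev t; fun_prop) hF',
    lintegral_withDensity_eq_lintegral_mul _ m4 hF]
  have := lintegral_map (μ := μ.map fun f => f + lin (-a)) (m3.mul hF) hm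
  rw [joint0 B R h0 ht, lintegral_withDensity_eq_lintegral_mul _ (measurable_dens _)
    (m3.mul hF)] at this
  simp only [Pi.mul_apply, zero_mul, sub_zero, mul_assoc] at this ⊢
  exact this.symm

theorem invol (L : (ℝ × ℝ × ℝ) →ₗ[ℝ] (ℝ × ℝ × ℝ)) (h : ∀ z, L (L z) = z)
    {F : ℝ × ℝ × ℝ → ℝ≥0∞} (hF : Measurable F) : ∫⁻ z, F (L z) = ∫⁻ z, F z := by
  have d : LinearMap.det L * LinearMap.det L = 1 := by
    rw [← LinearMap.det_comp, show L.comp L = LinearMap.id from LinearMap.ext h, LinearMap.det_id]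
  have d0 : LinearMap.det L ≠ 0 := left_ne_zero_of_mul_eq_one d
  have d1 : |(LinearMap.det L)⁻¹| = 1 := by
    rcases mul_self_eq_one_iff.1 d with e | e <;> simp [e]
  have i1 : (volume : Measure (ℝ × ℝ)).IsAddHaarMeasure := Measure.prod.instIsAddHaarMeasure _ _
  have i2 : (volume : Measure (ℝ × ℝ × ℝ)).IsAddHaarMeasure := Measure.prod.instIsAddHaarMeasure _ _
  have := Measure.map_linearMap_addHaar_eq_smul_addHaar (volume : Measure (ℝ × ℝ × ℝ)) d0
  rw [d1, ENNReal.ofReal_one, one_smul] at this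
  rw [← lintegral_map hF L.continuous_of_finiteDimensional.measurable, this]

/-- the symmetry when the maximum is renewed -/
def L1 : (ℝ × ℝ × ℝ) →ₗ[ℝ] (ℝ × ℝ × ℝ) where
  toFun z := (z.2.1 - z.2.2, 2 * z.2.1 - z.2.2 - z.1, 2 * z.2.1 - 2 * z.1 - z.2.2)
  map_add' := by intro x y; ext <;> simp <;> ring
  map_smul' := by intro c x; ext <;> simp <;> ring

/-- the symmetry when the maximum is not renewed -/
def L2 : (ℝ × ℝ × ℝ) →ₗ[ℝ] (ℝ × ℝ × ℝ) where
  toFun z := (z.1 - z.2.2, z.2.1 - z.2.2, -z.2.2)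
  map_add' := by intro x y; ext <;> simp <;> ring
  map_smul' := by intro c x; ext <;> simp <;> ring

/-- density of the triple -/
noncomputable def W (a t : ℝ) (z : ℝ × ℝ × ℝ) : ℝ≥0∞ :=
  (if 0 < z.1 then ENNReal.ofReal (2 * a * Real.exp (-(2 * a * z.1))) else 0) *
    (dens t.toNNReal z.2 * ENNReal.ofReal (Real.exp (a * z.2.2 - a ^ 2 * t / 2)))

theorem W_eq {a : ℝ} (ha : 0 < a) (t : ℝ) (z : ℝ × ℝ × ℝ) : W a t z =
    if 0 < z.1 ∧ 0 < z.2.1 ∧ z.2.2 < z.2.1 then
      ENNReal.ofReal (2 * a * Real.exp (a * (z.2.2 - 2 * z.1) - a ^ 2 * t / 2)) *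
      ENNReal.ofReal (2 * (2 * z.2.1 - z.2.2) / t.toNNReal *
        gaussianPDFReal 0 t.toNNReal (2 * z.2.1 - z.2.2)) else 0 := by
  unfold W dens
  by_cases h1 : 0 < z.1 <;> by_cases h2 : 0 < z.2.1 ∧ z.2.2 < z.2.1
  · rw [if_pos h1, if_pos h2, if_pos ⟨h1, h2⟩, mul_comm (ENNReal.ofReal (2 * (_ - _) / _ * _)),
      ← mul_assoc, ← ENNReal.ofReal_mul (by positivity), mul_assoc (2 * a), ← Real.exp_add]
    congr 4
    ring
  all_goals simp [h1, h2]

theorem loc (B : Bm1) (R : Ref) (C : CMStmt) : LocStmt := by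
  intro μ a t hμ ha ht
  have := hμ.prob
  have := isProbabilityMeasure_expMeasure (show 0 < 2 * a by positivity)
  have hm : Measurable fun f : CP => (smax f t, f t) :=
    (measurable_smax t).prodMk (measurable_ev t)
  have m1 : Measurable fun q : ℝ =>
      if 0 < q then ENNReal.ofReal (2 * a * Real.exp (-(2 * a * q))) else 0 :=
    Measurable.ite measurableSet_Ioi (by fun_prop) measurable_const
  have m3 : Measurable fun p : ℝ × ℝ =>
      dens t.toNNReal p * ENNReal.ofReal (Real.exp (a * p.2 - a ^ 2 * t / 2)) :=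
    (measurable_dens _).mul (by fun_prop)
  have mW : Measurable (W a t) := (m1.comp measurable_fst).mul (m3.comp measurable_snd)
  have e1 : expMeasure (2 * a) = volume.withDensity fun q : ℝ =>
      if 0 < q then ENNReal.ofReal (2 * a * Real.exp (-(2 * a * q))) else 0 := by
    refine withDensity_congr_ae (f := exponentialPDF (2 * a)) ?_
    filter_upwards [compl_mem_ae_iff.2 (Real.volume_singleton (a := 0))] with x hx
    rcases lt_or_gt_of_ne (show x ≠ 0 from hx) with h | h
    · rw [exponentialPDF_of_neg h, if_neg h.not_gt]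
    · rw [exponentialPDF_of_nonneg h.le, if_pos h]
  have e2 : ((expMeasure (2 * a)).prod μ).map (Prod.map id fun f => (smax f t, f t)) =
      volume.withDensity (W a t) := by
    rw [← Measure.map_prod_map _ _ measurable_id hm, Measure.map_id, joint B R C hμ ht, e1,
      prod_withDensity m1 m3]
    rfl
  have e3 : (expMeasure (2 * a)).prod (gaussianReal (a * t) t.toNNReal) =
      (volume.withDensity (W a t)).map fun z => (z.1, z.2.2) := by
    rw [← e2, Measure.map_map (by fun_prop) (measurable_id.prodMap hm), ← law_ev B hμ ht.le]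
    conv_lhs => rw [← Measure.map_id (μ := expMeasure (2 * a))]
    rw [Measure.map_prod_map _ _ measurable_id (measurable_ev t)]
    rfl
  have mΦ : Measurable fun z : ℝ × ℝ × ℝ =>
      (max z.1 z.2.1 - z.2.2, 2 * (max z.1 z.2.1 - z.1) - z.2.2) := by fun_prop
  have e4 : ((expMeasure (2 * a)).prod μ).map
      (fun p => (max p.1 (smax p.2 t) - p.2 t, 2 * (max p.1 (smax p.2 t) - p.1) - p.2 t)) =
      (volume.withDensity (W a t)).map fun z =>
        (max z.1 z.2.1 - z.2.2, 2 * (max z.1 z.2.1 - z.1) - z.2.2) := by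
    rw [← e2, Measure.map_map mΦ (measurable_id.prodMap hm)]
    rfl
  rw [e3, e4]
  refine Measure.ext_of_lintegral _ fun F hF => ?_
  have mπ : Measurable fun z : ℝ × ℝ × ℝ => (z.1, z.2.2) := by fun_prop
  have f1 : Measurable fun z : ℝ × ℝ × ℝ =>
      F (max z.1 z.2.1 - z.2.2, 2 * (max z.1 z.2.1 - z.1) - z.2.2) := hF.comp mΦ
  have f2 : Measurable fun z : ℝ × ℝ × ℝ => F (z.1, z.2.2) := hF.comp mπ
  rw [lintegral_map hF mΦ, lintegral_map hF mπ,
    lintegral_withDensity_eq_lintegral_mul _ mW f1,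
    lintegral_withDensity_eq_lintegral_mul _ mW f2]
  have s : MeasurableSet {z : ℝ × ℝ × ℝ | z.1 < z.2.1} :=
    measurableSet_lt measurable_fst measurable_snd.fst
  have g1 := (mW.mul f2).indicator s
  have g2 := (mW.mul f2).indicator s.compl
  refine Eq.trans ?_ (lintegral_add_compl _ s)
  rw [← lintegral_indicator s, ← lintegral_indicator s.compl]
  refine Eq.trans ?_ (congrArg₂ (· + ·) (invol L1 (fun z => by ext <;> simp [L1] <;> ring) g1)
    (invol L2 (fun z => by ext <;> simp [L2]) g2))
  refine Eq.trans ?_ (lintegral_add_left (g1.comp L1.continuous_of_finiteDimensional.measurable) _)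
  refine lintegral_congr fun ⟨q, m, x⟩ => ?_
  simp only [Pi.mul_apply, Function.comp, indicator, mem_ofPred_eq, mem_compl_iff, W_eq ha, L1, L2,
    LinearMap.coe_mk, AddHom.coe_mk]
  rw [show 2 * m - 2 * q - x - 2 * (m - x) = x - 2 * q by ring,
    show 2 * (2 * m - x - q) - (2 * m - 2 * q - x) = 2 * m - x by ring,
    show -x - 2 * (q - x) = x - 2 * q by ring, show 2 * (m - x) - -x = 2 * m - x by ring]
  rcases lt_or_ge q m with h | h
  · rw [if_pos (show m - x < 2 * m - x - q by linarith),
      if_neg (show ¬¬ q - x < m - x from fun hh => hh (by linarith)), add_zero, max_eq_right h.le,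
      show 2 * (m - q) - x = 2 * m - 2 * q - x by ring]
    congr 1
    exact if_congr ⟨fun ⟨a, b, c⟩ => ⟨by linarith, by linarith, by linarith⟩,
      fun ⟨a, b, c⟩ => ⟨by linarith, by linarith, by linarith⟩⟩ rfl rfl
  · rw [if_neg (show ¬ m - x < 2 * m - x - q by linarith),
      if_pos (show ¬ q - x < m - x by linarith), zero_add, max_eq_left h,
      show 2 * (q - q) - x = -x by ring]
    congr 1
    exact if_congr ⟨fun ⟨a, b, c⟩ => ⟨by linarith, by linarith, by linarith⟩,
      fun ⟨a, b, c⟩ => ⟨by linarith, by linarith, by linarith⟩⟩ rfl rfl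

end Pool.Agent.MP_3d8edd_pr.H39
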